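import Pool.Agent.Helper67.BK.Group

/-!
# A cancellative semigroup of non-exponential growth with a quotient group of exponential growth

We answer the question in the affirmative: there is a finitely generated cancellative semigroup `S` of
non-exponential growth whose group of left quotients `G = S⁻¹S` has exponential growth.

All notions are the ones of the problem file (`Pool/Agent/Helper67/BK/Growth.lean`):

* `Ball A n` is the set of the elements of the semigroup which are products of at most `n` elements
  of `A` (and of at least one), `gamma A n` is the number of its elements, and `HasRate A L` says that
  `lim gamma A n ^ (1/n) = L`;
* `NonExponentialGrowth S`: the semigroup `S` is finitely generated, and for every finite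
  generating set `A` the balls are finite and `HasRate A L` for some `L ≤ 1`;
* `GroupOfExponentialGrowth G`: the group `G` is finitely generated, and for every finite set `B`
  which generates the group, with `A = B ∪ B⁻¹`, the balls are finite and `HasRate A L` for some
  `L > 1`.

That `G` is the group of left quotients of `S` is expressed by an injective homomorphism `i : S → G`
such that all elements of `G` are of the form `i(s)⁻¹ i(t)`.

The proof: `G` is a permutational wreath product `ℤ/2 ≀ Γ` over a group `Γ` of Grigorchuk type, which
acts on a spherically homogeneous rooted tree of unbounded degrees; the directed subgroup of `Γ` is
`ℤ²`. Every positive element of `ℤ²` acts trivially on infinitely many levels, so products of the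
generators (without inverses) are contracted and `S` has subexponential growth; but
`a⁻¹ e₁ e₂⁻¹` acts as an odometer, so `G` contains a lamplighter group. By the growth of `S` and
cancellation any two elements of `S` have a common left multiple, and `G = S⁻¹S`.
-/

set_option autoImplicit false

open Pool.Agent.Helper67.BK

namespace Pool.Agent.Results.MP_b57530_al.QuotientGroupGrowth

/-- **There is a finitely generated cancellative semigroup `S` of non-exponential growth whose group
of left quotients `G = S⁻¹S` has exponential growth.** -/
theorem result :
    ∃ (S : Type) (_ : Semigroup S) (G : Type) (_ : Group G) (i : S →ₙ* G),
      (∀ s x y : S, s * x = s * y → x = y) ∧ (∀ s x y : S, x * s = y * s → x = y) ∧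
      NonExponentialGrowth S ∧
      Function.Injective i ∧ (∀ g : G, ∃ s t : S, g = (i s)⁻¹ * i t) ∧
      GroupOfExponentialGrowth G :=
  Pool.Agent.Helper67.BK.main

end Pool.Agent.Results.MP_b57530_al.QuotientGroupGrowth
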